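import Mathlib
import Pool.Agent.Work.MP_78c6b8_an.Defs
import Pool.Agent.Work.MP_78c6b8_an.Main

open Pool.Agent.Work.MP_78c6b8_an

/-- Let `Γ` be an admissible path in `ℂ`, `X = Γ*` its image and `F` the collection of all
subpaths of `Γ`. Then every Jordan path in `X`, and more generally every admissible path in `X`,
belongs to the maximal collection `⟨F⟩` generated by `F`. -/
theorem Pool.Agent.Results.MP_78c6b8_an.JordanPaths.result (Γ : CPath) (hΓ : Γ.IsAdmissible)
    (γ : CPath) (hγX : γ.image ⊆ Γ.image) (hγ : γ.IsJordan ∨ γ.IsAdmissible) :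
    γ ∈ maximalCollection Γ.image {σ : CPath | σ.IsSubpath Γ} :=
  mem_maximalCollection Γ hΓ γ hγX hγ
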